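import Pool.Agent.H41.Lib.H326R2.Pi.Stmts
/-! # Task T20 (helper1): from regular sequences of linear forms to a measure
(simplified version of `Pool.Agent.H346R2.Pi.abstract_measure`) -/

open Filter

namespace Pool.Agent.H1R2.PiM

theorem s_abs : Pool.Agent.H326R2.Pi.S_abs := by
  intro θ hθ A B n0 σ τ ε c hA hB hpos hsmall hbig hratio hσ hε ht0 hc
  set t : ℝ := τ - ε with ht
  have htpos : 0 < t := ht0
  have hl2 : 0 < Real.log 2 := Real.log_pos (by norm_num)
  have hst : σ / t < c := by rwa [div_lt_iff₀ htpos]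
  have hlog : Tendsto (fun q : ℕ => Real.log q) atTop atTop :=
    Real.tendsto_log_atTop.comp tendsto_natCast_atTop_atTop
  have ev3 : ∀ᶠ q : ℕ in atTop, σ * Real.log 2 / t + σ + Real.log 2 ≤ (c - σ / t) * Real.log q := by
    have : 0 < c - σ / t := by linarith
    exact (hlog.const_mul_atTop this).eventually_ge_atTop _
  have ev4 : ∀ᶠ q : ℕ in atTop, (n0 : ℝ) * t ≤ Real.log q := hlog.eventually_ge_atTop _
  filter_upwards [ev3, ev4, eventually_gt_atTop 0] with q e3 e4 hq0 p
  have hqpos : (0 : ℝ) < q := by exact_mod_cast hq0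
  have hq1 : (1 : ℝ) ≤ q := by exact_mod_cast hq0
  obtain ⟨L, hL⟩ : ∃ L, L = Real.log q := ⟨_, rfl⟩
  rw [← hL] at e3 e4 ⊢
  have hL0 : 0 ≤ L := by rw [hL]; exact Real.log_nonneg hq1
  have hqe : Real.exp L = q := by rw [hL, Real.exp_log hqpos]
  set δ : ℝ := q * θ - p with hδ
  set K : ℝ := (L + Real.log 2) / t with hK
  have hKnn : 0 ≤ K := by positivity
  set m : ℕ := ⌈K⌉₊ with hm
  have hm1 : K ≤ m := Nat.le_ceil K
  have hm2 : (m : ℝ) < K + 1 := Nat.ceil_lt_add_one hKnn
  have hmn0 : n0 ≤ m := by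
    have : (n0 : ℝ) ≤ K := by
      rw [hK, le_div_iff₀ htpos]
      linarith
    exact_mod_cast this.trans hm1
  have hsm : ∀ n : ℕ, m ≤ n → q * Real.exp (-(τ * n)) ≤ 1 / 2 := by
    intro n hn
    have h1 : L + Real.log 2 ≤ τ * n := by
      have h2 : K ≤ n := hm1.trans (by exact_mod_cast hn)
      rw [hK, div_le_iff₀ htpos] at h2
      have h3 : (0 : ℝ) ≤ n := Nat.cast_nonneg n
      have h4 : t ≤ τ := by linarith
      nlinarith
    have h5 : Real.exp (-(τ * n)) ≤ Real.exp (-(L + Real.log 2)) :=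
      Real.exp_le_exp.mpr (by linarith)
    calc q * Real.exp (-(τ * n)) ≤ q * Real.exp (-(L + Real.log 2)) := by gcongr
      _ = 1 / 2 := by
        rw [neg_add, Real.exp_add, Real.exp_neg L, hqe, Real.exp_neg, Real.exp_log (by norm_num)]
        field_simp
  set J : ℕ → ℝ := fun n => q * B n + p * A n with hJ
  have hJeq : ∀ n, A n * δ = q * (A n * θ + B n) - J n := by
    intro n; rw [hδ, hJ]; ring
  have hδ0 : δ ≠ 0 := by
    intro h0
    have : θ = ((p / q : ℚ) : ℝ) := by
      push_cast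
      rw [eq_div_iff hqpos.ne']
      linarith
    exact hθ ⟨_, this.symm⟩
  have hex : ∃ n, m ≤ n ∧ J n ≠ 0 := by
    by_contra hcon
    push Not at hcon
    have hb : ∀ n ≥ m, |δ| ≤ q * Real.exp (-(t * n)) := by
      intro n hn
      have hAn := hpos n (hmn0.trans hn)
      obtain ⟨a, ha⟩ := hA n (hmn0.trans hn)
      have hA1 : 1 ≤ A n := by
        rw [ha] at hAn ⊢
        have : (0 : ℤ) < a := by exact_mod_cast hAn
        exact_mod_cast this
      have h1 := hJeq n
      rw [hcon n hn, sub_zero] at h1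
      have h2 : A n * |δ| ≤ q * Real.exp (-(τ * n)) := by
        rw [← abs_of_pos hAn, ← abs_mul, h1, abs_mul, abs_of_pos hqpos]
        exact mul_le_mul_of_nonneg_left (hsmall n (hmn0.trans hn)) hqpos.le
      have h3 : |δ| ≤ A n * |δ| := le_mul_of_one_le_left (abs_nonneg _) hA1
      refine h3.trans (h2.trans ?_)
      apply mul_le_mul_of_nonneg_left _ hqpos.le
      apply Real.exp_le_exp.mpr
      have : (0 : ℝ) ≤ n := Nat.cast_nonneg n
      nlinarith
    have hlim : Tendsto (fun n : ℕ => (q : ℝ) * Real.exp (-(t * n))) atTop (nhds 0) := by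
      rw [← mul_zero (q : ℝ)]
      apply Tendsto.const_mul
      apply Real.tendsto_exp_neg_atTop_nhds_zero.comp
      exact tendsto_natCast_atTop_atTop.const_mul_atTop htpos
    have hle : |δ| ≤ 0 := ge_of_tendsto hlim (eventually_atTop.mpr ⟨m, hb⟩)
    exact hδ0 (abs_eq_zero.mp (le_antisymm hle (abs_nonneg _)))
  classical
  obtain ⟨n1, hn1, hmin⟩ : ∃ n1, (m ≤ n1 ∧ J n1 ≠ 0) ∧ ∀ k < n1, ¬ (m ≤ k ∧ J k ≠ 0) :=
    ⟨Nat.find hex, Nat.find_spec hex, fun k hk => Nat.find_min hex hk⟩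
  obtain ⟨hmn1, hJ1⟩ := hn1
  have hn0n1 := hmn0.trans hmn1
  have hA1pos := hpos n1 hn0n1
  have hup : m < n1 → A n1 * |δ| ≤ q * Real.exp (-(t * (n1 - 1))) := by
    intro hlt
    obtain ⟨n, hn⟩ : ∃ n, n1 = n + 1 := ⟨n1 - 1, by omega⟩
    have hmn : m ≤ n := by omega
    have hJn : J n = 0 := by
      by_contra h
      exact hmin n (by omega) ⟨hmn, h⟩
    have hAn := hpos n (hmn0.trans hmn)
    have h1 := hJeq n
    rw [hJn, sub_zero] at h1
    have h2 : A n * |δ| ≤ q * Real.exp (-(τ * n)) := by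
      rw [← abs_of_pos hAn, ← abs_mul, h1, abs_mul, abs_of_pos hqpos]
      exact mul_le_mul_of_nonneg_left (hsmall n (hmn0.trans hmn)) hqpos.le
    rw [hn]
    calc A (n + 1) * |δ| ≤ (Real.exp (ε * n) * A n) * |δ| :=
          mul_le_mul_of_nonneg_right (hratio n (hmn0.trans hmn)) (abs_nonneg _)
      _ = Real.exp (ε * n) * (A n * |δ|) := by ring
      _ ≤ Real.exp (ε * n) * (q * Real.exp (-(τ * n))) := by gcongr
      _ = q * (Real.exp (ε * n) * Real.exp (-(τ * n))) := by ring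
      _ = q * Real.exp (-(t * (((n + 1 : ℕ) : ℝ) - 1))) := by
          rw [← Real.exp_add]
          congr 2
          push_cast
          rw [ht]; ring
  have hlow : |J n1| - q * Real.exp (-(τ * n1)) ≤ A n1 * |δ| := by
    have h1 := hJeq n1
    have h2 : |q * (A n1 * θ + B n1)| ≤ q * Real.exp (-(τ * n1)) := by
      rw [abs_mul, abs_of_pos hqpos]
      exact mul_le_mul_of_nonneg_left (hsmall n1 hn0n1) hqpos.le
    have h3 : A n1 * |δ| = |q * (A n1 * θ + B n1) - J n1| := by
      rw [← h1, abs_mul, abs_of_pos hA1pos]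
    rw [h3]
    have h4 := abs_sub_abs_le_abs_sub (J n1) (q * (A n1 * θ + B n1))
    rw [abs_sub_comm] at h4
    linarith
  -- `J n1` is a nonzero integer
  have hJge : 1 ≤ |J n1| := by
    obtain ⟨b, hb⟩ := hB n1 hn0n1
    obtain ⟨a, ha⟩ := hA n1 hn0n1
    have hJint : J n1 = ((q * b + p * a : ℤ) : ℝ) := by
      rw [hJ]
      push_cast
      rw [← hb, ← ha]
    rw [hJint] at hJ1 ⊢
    have h2 : (q * b + p * a : ℤ) ≠ 0 := by exact_mod_cast hJ1
    have h3 := Int.one_le_abs h2
    exact_mod_cast h3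
  have hhalf : 1 / 2 ≤ A n1 * |δ| := by
    have := hsm n1 hmn1
    linarith
  have hn1K : (n1 : ℝ) ≤ K + 1 := by
    rcases Nat.eq_or_lt_of_le hmn1 with h | h
    · rw [← h]; exact hm2.le
    · have hup' := hup h
      have h1 : 1 / 2 ≤ q * Real.exp (-(t * (n1 - 1))) := hhalf.trans hup'
      have h2 : 1 ≤ Real.exp (Real.log 2 + (L + -(t * (n1 - 1)))) := by
        rw [Real.exp_add, Real.exp_add, Real.exp_log (by norm_num), hqe]
        linarith
      have h3 : 0 ≤ Real.log 2 + (L + -(t * (n1 - 1))) := by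
        by_contra hneg
        push Not at hneg
        have := Real.exp_lt_exp.mpr hneg
        rw [Real.exp_zero] at this
        linarith
      have h4 : (n1 : ℝ) - 1 ≤ K := by
        rw [hK, le_div_iff₀ htpos]; linarith
      linarith
  have hfin : Real.exp (-(σ * n1)) / 2 ≤ |δ| := by
    have h1 := hbig n1 hn0n1
    have h2 : 1 / 2 ≤ Real.exp (σ * n1) * |δ| :=
      hhalf.trans (mul_le_mul_of_nonneg_right h1 (abs_nonneg _))
    rw [Real.exp_neg]
    have h3 := Real.exp_pos (σ * n1)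
    rw [div_le_iff₀ (by norm_num), inv_le_iff_one_le_mul₀ h3]
    linarith
  refine le_trans ?_ hfin
  have h2 : Real.exp (-(σ * n1)) / 2 = Real.exp (-(σ * n1) - Real.log 2) := by
    rw [Real.exp_sub, Real.exp_log (by norm_num)]
  rw [h2]
  apply Real.exp_le_exp.mpr
  have h3 : σ * n1 ≤ σ * (K + 1) := mul_le_mul_of_nonneg_left hn1K hσ.le
  have h4 : σ * (K + 1) = σ / t * L + σ * Real.log 2 / t + σ := by
    rw [hK]; ring
  have h5 : (c - σ / t) * L = c * L - σ / t * L := by ring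
  rw [h5] at e3
  linarith

end Pool.Agent.H1R2.PiM
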